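import Pool.Agent.Helper68.CStar.Inst

/-!
# Restriction closure of cd-depth versus c*d-depth (MP_17585b_co)

The conjectured equality is false.  There is a matroid `M` on `900029` elements whose c*d-depth is
at most `14`, while every finite matroid containing `M` as a restriction has cd-depth at least
`15`.  The definitions used in the statement are in `Pool.Agent.Helper68.CStar.Defs`.

The matroid, with `r = 300000`: the ground set consists of three classes of `r + 9` elements and
two more elements `h`, `e`.  A set with `a₀`, `a₁`, `a₂` elements in the three classes is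
independent iff each `aᵢ` is at most `r`, at most one of them equals `r`, its size is at most
`3r - 2` and, in case it contains both `h` and `e`, `a₀ < r`, `a₁ < r` and not both `a₂ = r` and
`max a₀ a₁ = r - 1`.  So the classes are uniform of rank `r` and are glued together by 2-sums at a
virtual point `g`; a c*-step that contracts `g` separates them (and a deletion of `h` comes
before).  A matroid containing `M` has no element that does the same work, because the elements
`h` and `e` block each candidate for one of the classes.
-/

namespace Pool.Agent.Results.MP_17585b_co.DepthGap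

open Set Matroid Pool.Agent.CStar

/-- There is a finite matroid `M` whose c*d-depth is at most `14`, while each finite matroid that
contains `M` as a restriction has cd-depth at least `15`.  Here the cd-depth `f` and the
c*d-depth `g` are the functions obeying the clauses of their recursive definitions. -/
theorem result :
    (∃ f : Matroid ℕ → ℕ, IsDepth CDTrans f) ∧ (∃ g : Matroid ℕ → ℕ, IsDepth CStarDTrans g) ∧
    ∃ M : Matroid ℕ, M.Finite ∧ M.E.Nonempty ∧
      ∀ f g : Matroid ℕ → ℕ, IsDepth CDTrans f → IsDepth CStarDTrans g →
        g M ≤ 14 ∧ (∀ M' : Matroid ℕ, M'.Finite → M ≤r M' → 15 ≤ f M') ∧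
        ¬ IsLeast {d | ∃ M' : Matroid ℕ, M'.Finite ∧ M ≤r M' ∧ f M' = d} (g M) := by
  have hTC : ∀ M M' : Matroid ℕ, DTrans M M' → CDTrans M M' := fun _ _ h => Or.inr h
  have hTS : ∀ M M' : Matroid ℕ, DTrans M M' → CStarDTrans M M' := fun _ _ h => Or.inr h
  refine ⟨⟨_, isDepth_depth hTC keeps_CD⟩, ⟨_, isDepth_depth hTS keeps_CStarD⟩, exParts.mat,
    inferInstance, ?_, ?_⟩
  · exact ⟨0, mem_iUnion.2 ⟨0, ⟨le_rfl, by norm_num⟩⟩⟩
  intro f g hf hg
  have hne : exParts.mat.E.Nonempty := ⟨0, mem_iUnion.2 ⟨0, ⟨le_rfl, by norm_num⟩⟩⟩
  have hup : g exParts.mat ≤ 14 := by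
    rw [hg.eq_depth hTS keeps_CStarD inferInstance hne]
    exact depth_le_of (upper exParts exParts_g (by norm_num))
  have hlow : ∀ M' : Matroid ℕ, M'.Finite → exParts.mat ≤r M' → 15 ≤ f M' := by
    intro M' hfin hM'
    have hne' : M'.E.Nonempty := hne.mono hM'.subset
    rw [hf.eq_depth hTC keeps_CD hfin hne']
    by_contra hcon
    exact lower le_rfl (exParts.cfg (by norm_num) hM')
      ((depthLE_iff hTC hfin hne').2 (by omega))
  refine ⟨hup, hlow, fun h => ?_⟩
  obtain ⟨M', hfin, hM', hd⟩ := h.1
  have := hlow M' hfin hM'
  omega

end Pool.Agent.Results.MP_17585b_co.DepthGap
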